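import Pool.Agent.helper14.NS.Q100e.PN2

/-!
Generated: certificates.
-/

namespace Pool.Agent.helper14.NS.Q100e

open Pool.Agent.helper31.IA (Z)
open Pool.Agent.helper31.IX (Op XOps runX Cov CovD cov_split covD_split)
open Pool.Agent.helper31.IC (TD)
open Pool.Agent.helper63.RG (reloc)
open Pool.Agent.helper63.NF hiding TD
open Pool.Agent.helper4.NS
open Pool.Agent.helper14.CF (xE covD_E)
open Pool.Agent.helper14.NR (share)

mutual
theorem A2_c0_t5 : CovD 1 gA2 [(8246001664, 916455424), (2473901162496, 274877906944), (1099511627776, 1099511627776)] :=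
  covD_E kA2_eq (.n 2 (.n 2 (.n 2 (.l 0) (.n 0 (.l 0) (.l 0))) (.n 2 (.n 0 (.l 0) (.l 0)) (.l 0))) (.n 0 (.n 2 (.n 2 (.l 0) (.l 0)) (.n 2 (.l 0) (.l 0))) (.n 2 (.n 2 (.l 0) (.l 0)) (.n 2 (.l 0) (.l 0)))))
    [(8246001664, 916455424), (2473901162496, 274877906944), (1099511627776, 1099511627776)] rfl (by decide +kernel)
theorem A2_c0_t6 : CovD 1 gA2 [(8246001664, 916455424), (2473901162496, 274877906944), (3298534883328, 1099511627776)] :=
  covD_E kA2_eq (.n 2 (.n 0 (.n 2 (.n 2 (.l 0) (.l 0)) (.n 2 (.l 0) (.l 0))) (.n 2 (.n 2 (.l 0) (.l 0)) (.n 2 (.l 0) (.l 0)))) (.n 2 (.n 2 (.l 0) (.l 0)) (.n 2 (.n 2 (.l 0) (.n 0 (.l 1) (.l 1))) (.l 1))))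
    [(8246001664, 916455424), (2473901162496, 274877906944), (3298534883328, 1099511627776)] rfl (by decide +kernel)
end

mutual
theorem A2_c0_t7 : CovD 1 gA2 [(8246001664, 916455424), (2473901162496, 274877906944), (6597069766656, 2199023255552)] :=
  covD_E kA2_eq (.n 2 (.n 2 (.n 0 (.l 1) (.l 1)) (.l 1)) (.l 1))
    [(8246001664, 916455424), (2473901162496, 274877906944), (6597069766656, 2199023255552)] rfl (by decide +kernel)
theorem A2_c0_t10 : CovD 1 gA2 [(8246001664, 916455424), (3023656976384, 274877906944), (1099511627776, 1099511627776)] :=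
  covD_E kA2_eq (.n 2 (.n 2 (.n 2 (.l 0) (.l 0)) (.n 2 (.l 0) (.l 0))) (.n 2 (.n 2 (.l 0) (.l 0)) (.n 2 (.l 0) (.l 0))))
    [(8246001664, 916455424), (3023656976384, 274877906944), (1099511627776, 1099511627776)] rfl (by decide +kernel)
end

mutual
theorem A2_c0_t11 : CovD 1 gA2 [(8246001664, 916455424), (3023656976384, 274877906944), (3298534883328, 1099511627776)] :=
  covD_E kA2_eq (.n 2 (.n 2 (.n 2 (.l 0) (.l 0)) (.n 2 (.l 0) (.l 0))) (.n 2 (.n 0 (.l 0) (.l 0)) (.n 2 (.n 2 (.l 0) (.n 0 (.l 1) (.l 1))) (.l 1))))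
    [(8246001664, 916455424), (3023656976384, 274877906944), (3298534883328, 1099511627776)] rfl (by decide +kernel)
theorem A2_c0_t12 : CovD 1 gA2 [(8246001664, 916455424), (3023656976384, 274877906944), (6597069766656, 2199023255552)] :=
  covD_E kA2_eq (.n 2 (.n 2 (.n 0 (.l 1) (.l 1)) (.l 1)) (.l 1))
    [(8246001664, 916455424), (3023656976384, 274877906944), (6597069766656, 2199023255552)] rfl (by decide +kernel)
end

mutual
theorem A2_c0_t15 : CovD 1 gA2 [(8246001664, 916455424), (3573412790272, 274877906944), (2199023255552, 2199023255552)] :=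
  covD_E kA2_eq (.n 2 (.n 2 (.n 2 (.l 0) (.l 0)) (.n 0 (.n 2 (.l 0) (.l 0)) (.n 2 (.l 0) (.l 0)))) (.n 2 (.n 2 (.l 0) (.l 0)) (.n 2 (.l 0) (.n 2 (.n 2 (.l 0) (.n 0 (.l 1) (.l 1))) (.n 0 (.l 1) (.l 1))))))
    [(8246001664, 916455424), (3573412790272, 274877906944), (2199023255552, 2199023255552)] rfl (by decide +kernel)
theorem A2_c0_t16 : CovD 1 gA2 [(8246001664, 916455424), (3573412790272, 274877906944), (6597069766656, 2199023255552)] :=
  covD_E kA2_eq (.n 2 (.n 2 (.n 0 (.l 1) (.l 1)) (.l 1)) (.l 1))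
    [(8246001664, 916455424), (3573412790272, 274877906944), (6597069766656, 2199023255552)] rfl (by decide +kernel)
end

mutual
theorem A2_c0_t17 : CovD 1 gA2 [(8246001664, 916455424), (4123168604160, 274877906944), (4398046511104, 4398046511104)] :=
  covD_E kA2_eq (.n 2 (.n 2 (.n 2 (.n 2 (.l 0) (.l 0)) (.n 2 (.l 0) (.l 0))) (.n 2 (.n 2 (.l 0) (.l 0)) (.n 2 (.l 0) (.n 0 (.n 2 (.n 0 (.l 0) (.l 0)) (.l 1)) (.n 2 (.l 0) (.l 1)))))) (.n 2 (.n 2 (.n 0 (.l 1) (.l 1)) (.l 1)) (.l 1)))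
    [(8246001664, 916455424), (4123168604160, 274877906944), (4398046511104, 4398046511104)] rfl (by decide +kernel)
theorem A2_c0_t22 : CovD 1 gA2 [(10078912512, 916455424), (2473901162496, 274877906944), (1099511627776, 1099511627776)] :=
  covD_E kA2_eq (.n 2 (.n 2 (.n 2 (.l 0) (.l 0)) (.n 2 (.l 0) (.l 0))) (.n 2 (.n 2 (.l 0) (.l 0)) (.n 2 (.l 0) (.l 0))))
    [(10078912512, 916455424), (2473901162496, 274877906944), (1099511627776, 1099511627776)] rfl (by decide +kernel)
end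

mutual
theorem A2_c0_t23 : CovD 1 gA2 [(10078912512, 916455424), (2473901162496, 274877906944), (3298534883328, 1099511627776)] :=
  covD_E kA2_eq (.n 2 (.n 2 (.n 2 (.l 0) (.l 0)) (.n 2 (.l 0) (.l 0))) (.n 2 (.n 0 (.l 0) (.l 0)) (.n 2 (.n 2 (.l 0) (.n 0 (.l 1) (.l 1))) (.l 1))))
    [(10078912512, 916455424), (2473901162496, 274877906944), (3298534883328, 1099511627776)] rfl (by decide +kernel)
theorem A2_c0_t24 : CovD 1 gA2 [(10078912512, 916455424), (3023656976384, 274877906944), (2199023255552, 2199023255552)] :=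
  covD_E kA2_eq (.n 2 (.n 0 (.n 2 (.n 2 (.l 0) (.l 0)) (.n 2 (.l 0) (.l 0))) (.n 2 (.n 2 (.l 0) (.l 0)) (.n 2 (.l 0) (.l 0)))) (.n 2 (.n 2 (.n 0 (.l 0) (.l 0)) (.l 0)) (.n 2 (.l 0) (.n 2 (.n 2 (.l 0) (.n 0 (.l 1) (.l 1))) (.l 1)))))
    [(10078912512, 916455424), (3023656976384, 274877906944), (2199023255552, 2199023255552)] rfl (by decide +kernel)
end

mutual
theorem A2_c0_t25 : CovD 1 gA2 [(10078912512, 916455424), (2748779069440, 549755813888), (6597069766656, 2199023255552)] :=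
  covD_E kA2_eq (.n 2 (.n 2 (.n 1 (.l 1) (.l 1)) (.l 1)) (.n 0 (.l 1) (.l 1)))
    [(10078912512, 916455424), (2748779069440, 549755813888), (6597069766656, 2199023255552)] rfl (by decide +kernel)
theorem A2_c0_t28 : CovD 1 gA2 [(10078912512, 916455424), (3573412790272, 274877906944), (2199023255552, 2199023255552)] :=
  covD_E kA2_eq (.n 2 (.n 2 (.n 2 (.l 0) (.l 0)) (.n 2 (.l 0) (.l 0))) (.n 2 (.n 2 (.l 0) (.l 0)) (.n 2 (.l 0) (.n 0 (.n 2 (.n 0 (.l 0) (.l 0)) (.l 1)) (.n 2 (.l 0) (.l 1))))))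
    [(10078912512, 916455424), (3573412790272, 274877906944), (2199023255552, 2199023255552)] rfl (by decide +kernel)
end

mutual
theorem A2_c0_t29 : CovD 1 gA2 [(10078912512, 916455424), (4123168604160, 274877906944), (2199023255552, 2199023255552)] :=
  covD_E kA2_eq (.n 2 (.n 0 (.n 2 (.l 0) (.l 0)) (.n 2 (.l 0) (.l 0))) (.n 2 (.n 0 (.l 0) (.l 0)) (.n 2 (.l 0) (.n 2 (.l 0) (.n 0 (.l 1) (.l 1))))))
    [(10078912512, 916455424), (4123168604160, 274877906944), (2199023255552, 2199023255552)] rfl (by decide +kernel)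
theorem A2_c0_t30 : CovD 1 gA2 [(10078912512, 916455424), (3848290697216, 549755813888), (6597069766656, 2199023255552)] :=
  covD_E kA2_eq (.n 2 (.n 0 (.n 2 (.n 1 (.l 1) (.l 1)) (.l 1)) (.n 2 (.n 1 (.l 1) (.l 1)) (.l 1))) (.l 1))
    [(10078912512, 916455424), (3848290697216, 549755813888), (6597069766656, 2199023255552)] rfl (by decide +kernel)
end

mutual
theorem B2_c0_t5 : CovD 1 gB2 [(8246001664, 916455424), (2748779069440, 549755813888), (8589934592, 8589934592)] :=
  covD_E kB2_eq (.n 2 (.n 2 (.n 2 (.n 2 (.l 1) (.l 1)) (.n 2 (.l 1) (.l 1))) (.n 2 (.n 2 (.l 1) (.l 1)) (.n 0 (.l 1) (.l 1)))) (.n 2 (.n 2 (.n 0 (.l 1) (.l 1)) (.l 1)) (.n 2 (.l 1) (.l 1))))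
    [(8246001664, 916455424), (2748779069440, 549755813888), (8589934592, 8589934592)] rfl (by decide +kernel)
theorem B2_c0_t6 : CovD 1 gB2 [(8246001664, 916455424), (3848290697216, 549755813888), (8589934592, 8589934592)] :=
  covD_E kB2_eq (.n 2 (.n 2 (.n 2 (.n 2 (.l 1) (.l 1)) (.n 0 (.l 1) (.l 1))) (.n 0 (.n 2 (.l 1) (.l 1)) (.n 2 (.l 1) (.l 1)))) (.n 2 (.n 2 (.l 1) (.l 1)) (.n 2 (.l 1) (.l 1))))
    [(8246001664, 916455424), (3848290697216, 549755813888), (8589934592, 8589934592)] rfl (by decide +kernel)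
end

mutual
theorem B2_c0_t7 : CovD 1 gB2 [(8246001664, 916455424), (3298534883328, 1099511627776), (25769803776, 8589934592)] :=
  covD_E kB2_eq (.n 2 (.n 2 (.n 2 (.l 1) (.l 1)) (.n 0 (.l 1) (.l 1))) (.n 2 (.l 1) (.l 1)))
    [(8246001664, 916455424), (3298534883328, 1099511627776), (25769803776, 8589934592)] rfl (by decide +kernel)
theorem B2_c0_t8 : CovD 1 gB2 [(8246001664, 916455424), (3298534883328, 1099511627776), (51539607552, 17179869184)] :=
  covD_E kB2_eq (.n 2 (.n 2 (.n 0 (.l 1) (.l 1)) (.l 1)) (.n 2 (.l 1) (.l 1)))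
    [(8246001664, 916455424), (3298534883328, 1099511627776), (51539607552, 17179869184)] rfl (by decide +kernel)
end

mutual
theorem B2_c0_t9 : CovD 1 gB2 [(8246001664, 916455424), (3298534883328, 1099511627776), (103079215104, 34359738368)] :=
  covD_E kB2_eq (.n 2 (.n 2 (.n 2 (.l 1) (.l 1)) (.n 0 (.l 1) (.l 1))) (.n 1 (.n 2 (.l 1) (.l 1)) (.n 0 (.l 1) (.l 1))))
    [(8246001664, 916455424), (3298534883328, 1099511627776), (103079215104, 34359738368)] rfl (by decide +kernel)
theorem B2_c0_t13 : CovD 1 gB2 [(10078912512, 916455424), (3298534883328, 1099511627776), (8589934592, 8589934592)] :=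
  covD_E kB2_eq (.n 2 (.n 1 (.n 2 (.n 0 (.n 2 (.l 1) (.l 1)) (.n 2 (.l 1) (.l 1))) (.n 2 (.l 1) (.l 1))) (.n 2 (.n 2 (.l 1) (.l 1)) (.n 2 (.l 1) (.l 1)))) (.n 2 (.n 1 (.n 2 (.l 1) (.l 1)) (.n 2 (.l 1) (.l 1))) (.n 2 (.l 1) (.l 1))))
    [(10078912512, 916455424), (3298534883328, 1099511627776), (8589934592, 8589934592)] rfl (by decide +kernel)
end

mutual
theorem B2_c0_t14 : CovD 1 gB2 [(10078912512, 916455424), (3298534883328, 1099511627776), (25769803776, 8589934592)] :=
  covD_E kB2_eq (.n 2 (.n 1 (.n 2 (.l 1) (.l 1)) (.n 2 (.l 1) (.l 1))) (.n 2 (.l 1) (.l 1)))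
    [(10078912512, 916455424), (3298534883328, 1099511627776), (25769803776, 8589934592)] rfl (by decide +kernel)
theorem B2_c0_t15 : CovD 1 gB2 [(10078912512, 916455424), (3298534883328, 1099511627776), (51539607552, 17179869184)] :=
  covD_E kB2_eq (.n 2 (.n 2 (.n 0 (.l 1) (.l 1)) (.l 1)) (.n 2 (.l 1) (.l 1)))
    [(10078912512, 916455424), (3298534883328, 1099511627776), (51539607552, 17179869184)] rfl (by decide +kernel)
end

mutual
theorem B2_c0_t16 : CovD 1 gB2 [(10078912512, 916455424), (3298534883328, 1099511627776), (103079215104, 34359738368)] :=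
  covD_E kB2_eq (.n 0 (.n 2 (.n 2 (.l 1) (.l 1)) (.n 2 (.l 1) (.l 1))) (.n 2 (.n 2 (.l 1) (.l 1)) (.n 2 (.l 1) (.l 1))))
    [(10078912512, 916455424), (3298534883328, 1099511627776), (103079215104, 34359738368)] rfl (by decide +kernel)
theorem D2_c0_t2 : CovD 1 gD2 [(9162457088, 1832910848), (2473901162496, 274877906944), (863610339328, 863610339328)] :=
  covD_E kD2_eq (.n 2 (.n 2 (.n 2 (.l 0) (.l 0)) (.n 2 (.l 0) (.l 0))) (.n 2 (.n 2 (.l 0) (.l 0)) (.n 2 (.l 0) (.l 0))))
    [(9162457088, 1832910848), (2473901162496, 274877906944), (863610339328, 863610339328)] rfl (by decide +kernel)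
end

mutual
theorem D2_c0_t3 : CovD 1 gD2 [(9162457088, 1832910848), (3023656976384, 274877906944), (863610339328, 863610339328)] :=
  covD_E kD2_eq (.n 2 (.n 2 (.n 2 (.l 0) (.l 0)) (.n 0 (.n 2 (.l 0) (.l 0)) (.n 2 (.l 0) (.l 0)))) (.n 0 (.n 2 (.n 2 (.l 0) (.l 0)) (.n 2 (.l 0) (.l 0))) (.n 2 (.n 2 (.l 0) (.l 0)) (.n 2 (.l 0) (.l 0)))))
    [(9162457088, 1832910848), (3023656976384, 274877906944), (863610339328, 863610339328)] rfl (by decide +kernel)
theorem D2_c0_t5 : CovD 1 gD2 [(9162457088, 1832910848), (3573412790272, 274877906944), (863610339328, 863610339328)] :=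
  covD_E kD2_eq (.n 0 (.n 2 (.n 2 (.n 2 (.l 0) (.l 0)) (.n 2 (.l 0) (.l 0))) (.n 2 (.n 2 (.l 0) (.l 0)) (.n 2 (.l 0) (.l 0)))) (.n 2 (.n 2 (.n 2 (.l 0) (.l 0)) (.n 2 (.l 0) (.l 0))) (.n 2 (.n 2 (.l 0) (.l 0)) (.n 2 (.l 0) (.l 0)))))
    [(9162457088, 1832910848), (3573412790272, 274877906944), (863610339328, 863610339328)] rfl (by decide +kernel)
end

mutual
theorem D2_c0_t7 : CovD 1 gD2 [(8246001664, 916455424), (4123168604160, 274877906944), (863610339328, 863610339328)] :=
  covD_E kD2_eq (.n 2 (.n 2 (.n 2 (.l 0) (.l 0)) (.n 2 (.l 0) (.l 0))) (.n 2 (.n 2 (.l 0) (.l 0)) (.n 0 (.n 2 (.l 0) (.l 0)) (.n 2 (.l 0) (.l 0)))))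
    [(8246001664, 916455424), (4123168604160, 274877906944), (863610339328, 863610339328)] rfl (by decide +kernel)
theorem D2_c0_t8 : CovD 1 gD2 [(10078912512, 916455424), (4123168604160, 274877906944), (863610339328, 863610339328)] :=
  covD_E kD2_eq (.n 2 (.n 2 (.n 2 (.l 0) (.l 0)) (.n 2 (.l 0) (.l 0))) (.n 2 (.n 2 (.l 0) (.l 0)) (.n 2 (.l 0) (.l 0))))
    [(10078912512, 916455424), (4123168604160, 274877906944), (863610339328, 863610339328)] rfl (by decide +kernel)
end

mutual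
theorem E2_c0_t4 : CovD 1 gE2 [(9162457088, 1832910848), (3298534883328, 1099511627776), (53975646208, 53975646208)] :=
  covD_E kE2_eq (.n 1 (.n 1 (.n 1 (.n 2 (.l 1) (.l 0)) (.n 2 (.l 1) (.l 0))) (.n 0 (.n 2 (.l 1) (.l 0)) (.n 2 (.l 0) (.l 0)))) (.n 1 (.n 2 (.l 1) (.n 0 (.l 0) (.l 0))) (.n 2 (.l 1) (.n 0 (.l 0) (.l 0)))))
    [(9162457088, 1832910848), (3298534883328, 1099511627776), (53975646208, 53975646208)] rfl (by decide +kernel)
theorem E2_c0_t5 : CovD 1 gE2 [(9162457088, 1832910848), (3298534883328, 1099511627776), (161926938624, 53975646208)] :=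
  covD_E kE2_eq (.n 2 (.n 1 (.n 1 (.n 0 (.l 0) (.l 0)) (.l 0)) (.n 1 (.l 0) (.l 0))) (.n 1 (.n 1 (.l 0) (.l 0)) (.n 1 (.l 0) (.l 0))))
    [(9162457088, 1832910848), (3298534883328, 1099511627776), (161926938624, 53975646208)] rfl (by decide +kernel)
end

mutual
theorem E2_c0_t6 : CovD 1 gE2 [(9162457088, 1832910848), (3298534883328, 1099511627776), (323853877248, 107951292416)] :=
  covD_E kE2_eq (.n 2 (.n 2 (.n 1 (.n 1 (.l 0) (.l 0)) (.n 1 (.l 0) (.l 0))) (.n 1 (.n 1 (.l 0) (.l 0)) (.n 1 (.l 0) (.l 0)))) (.n 0 (.n 1 (.n 1 (.l 0) (.l 0)) (.n 1 (.l 0) (.l 0))) (.n 1 (.n 1 (.l 0) (.l 0)) (.n 1 (.l 0) (.l 0)))))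
    [(9162457088, 1832910848), (3298534883328, 1099511627776), (323853877248, 107951292416)] rfl (by decide +kernel)
theorem E2_c0_t8 : CovD 1 gE2 [(9162457088, 1832910848), (3298534883328, 1099511627776), (539756462080, 107951292416)] :=
  covD_E kE2_eq (.n 2 (.n 1 (.n 1 (.l 0) (.l 0)) (.n 1 (.l 0) (.n 0 (.l 0) (.l 0)))) (.n 1 (.n 1 (.l 0) (.l 0)) (.n 1 (.l 0) (.n 0 (.l 0) (.l 0)))))
    [(9162457088, 1832910848), (3298534883328, 1099511627776), (539756462080, 107951292416)] rfl (by decide +kernel)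
end

mutual
theorem E2_c0_t9 : CovD 1 gE2 [(9162457088, 1832910848), (3298534883328, 1099511627776), (755659046912, 107951292416)] :=
  covD_E kE2_eq (.n 2 (.n 1 (.n 1 (.l 0) (.l 0)) (.n 1 (.l 0) (.n 0 (.l 0) (.l 0)))) (.n 1 (.n 1 (.l 0) (.l 0)) (.n 1 (.l 0) (.n 0 (.l 0) (.l 0)))))
    [(9162457088, 1832910848), (3298534883328, 1099511627776), (755659046912, 107951292416)] rfl (by decide +kernel)
theorem E2_c0_t12 : CovD 1 gE2 [(9162457088, 1832910848), (3298534883328, 1099511627776), (971561631744, 107951292416)] :=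
  covD_E kE2_eq (.n 2 (.n 1 (.n 1 (.l 0) (.l 0)) (.n 1 (.l 0) (.n 0 (.l 0) (.l 0)))) (.n 1 (.n 1 (.l 0) (.l 0)) (.n 1 (.l 0) (.n 0 (.l 0) (.l 0)))))
    [(9162457088, 1832910848), (3298534883328, 1099511627776), (971561631744, 107951292416)] rfl (by decide +kernel)
end

mutual
theorem E2_c0_t13 : CovD 1 gE2 [(9162457088, 1832910848), (3298534883328, 1099511627776), (1187464216576, 107951292416)] :=
  covD_E kE2_eq (.n 2 (.n 1 (.n 1 (.l 0) (.l 0)) (.n 1 (.l 0) (.n 0 (.l 0) (.l 0)))) (.n 1 (.n 1 (.l 0) (.l 0)) (.n 1 (.l 0) (.n 0 (.l 0) (.l 0)))))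
    [(9162457088, 1832910848), (3298534883328, 1099511627776), (1187464216576, 107951292416)] rfl (by decide +kernel)
theorem E2_c0_t15 : CovD 1 gE2 [(9162457088, 1832910848), (3298534883328, 1099511627776), (1403366801408, 107951292416)] :=
  covD_E kE2_eq (.n 2 (.n 1 (.n 1 (.l 0) (.l 0)) (.n 1 (.l 0) (.n 0 (.l 0) (.l 0)))) (.n 1 (.n 1 (.l 0) (.l 0)) (.n 1 (.l 0) (.l 0))))
    [(9162457088, 1832910848), (3298534883328, 1099511627776), (1403366801408, 107951292416)] rfl (by decide +kernel)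
end

theorem E2_c0_t16 : CovD 1 gE2 [(9162457088, 1832910848), (3298534883328, 1099511627776), (1619269386240, 107951292416)] :=
  covD_E kE2_eq (.n 2 (.n 1 (.n 1 (.l 0) (.l 0)) (.n 1 (.l 0) (.l 0))) (.n 1 (.n 1 (.l 0) (.l 0)) (.n 1 (.l 0) (.l 0))))
    [(9162457088, 1832910848), (3298534883328, 1099511627776), (1619269386240, 107951292416)] rfl (by decide +kernel)

theorem A2_c0_t4 : CovD 1 gA2 [(8246001664, 916455424), (2473901162496, 274877906944), (2199023255552, 2199023255552)] :=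
  covD_split 2 (by decide +kernel) A2_c0_t5 A2_c0_t6

theorem A2_c0_t3 : CovD 1 gA2 [(8246001664, 916455424), (2473901162496, 274877906944), (4398046511104, 4398046511104)] :=
  covD_split 2 (by decide +kernel) A2_c0_t4 A2_c0_t7

theorem A2_c0_t9 : CovD 1 gA2 [(8246001664, 916455424), (3023656976384, 274877906944), (2199023255552, 2199023255552)] :=
  covD_split 2 (by decide +kernel) A2_c0_t10 A2_c0_t11

theorem A2_c0_t8 : CovD 1 gA2 [(8246001664, 916455424), (3023656976384, 274877906944), (4398046511104, 4398046511104)] :=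
  covD_split 2 (by decide +kernel) A2_c0_t9 A2_c0_t12

theorem A2_c0_t2 : CovD 1 gA2 [(8246001664, 916455424), (2748779069440, 549755813888), (4398046511104, 4398046511104)] :=
  covD_split 1 (by decide +kernel) A2_c0_t3 A2_c0_t8

theorem A2_c0_t14 : CovD 1 gA2 [(8246001664, 916455424), (3573412790272, 274877906944), (4398046511104, 4398046511104)] :=
  covD_split 2 (by decide +kernel) A2_c0_t15 A2_c0_t16

theorem A2_c0_t13 : CovD 1 gA2 [(8246001664, 916455424), (3848290697216, 549755813888), (4398046511104, 4398046511104)] :=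
  covD_split 1 (by decide +kernel) A2_c0_t14 A2_c0_t17

theorem A2_c0_t1 : CovD 1 gA2 [(8246001664, 916455424), (3298534883328, 1099511627776), (4398046511104, 4398046511104)] :=
  covD_split 1 (by decide +kernel) A2_c0_t2 A2_c0_t13

theorem A2_c0_t21 : CovD 1 gA2 [(10078912512, 916455424), (2473901162496, 274877906944), (2199023255552, 2199023255552)] :=
  covD_split 2 (by decide +kernel) A2_c0_t22 A2_c0_t23

theorem A2_c0_t20 : CovD 1 gA2 [(10078912512, 916455424), (2748779069440, 549755813888), (2199023255552, 2199023255552)] :=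
  covD_split 1 (by decide +kernel) A2_c0_t21 A2_c0_t24

theorem A2_c0_t19 : CovD 1 gA2 [(10078912512, 916455424), (2748779069440, 549755813888), (4398046511104, 4398046511104)] :=
  covD_split 2 (by decide +kernel) A2_c0_t20 A2_c0_t25

theorem A2_c0_t27 : CovD 1 gA2 [(10078912512, 916455424), (3848290697216, 549755813888), (2199023255552, 2199023255552)] :=
  covD_split 1 (by decide +kernel) A2_c0_t28 A2_c0_t29

theorem A2_c0_t26 : CovD 1 gA2 [(10078912512, 916455424), (3848290697216, 549755813888), (4398046511104, 4398046511104)] :=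
  covD_split 2 (by decide +kernel) A2_c0_t27 A2_c0_t30

theorem A2_c0_t18 : CovD 1 gA2 [(10078912512, 916455424), (3298534883328, 1099511627776), (4398046511104, 4398046511104)] :=
  covD_split 1 (by decide +kernel) A2_c0_t19 A2_c0_t26

theorem A2_c0 : CovD 1 gA2 [(9162457088, 1832910848), (3298534883328, 1099511627776), (4398046511104, 4398046511104)] :=
  covD_split 0 (by decide +kernel) A2_c0_t1 A2_c0_t18

theorem B2_c0_t4 : CovD 1 gB2 [(8246001664, 916455424), (3298534883328, 1099511627776), (8589934592, 8589934592)] :=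
  covD_split 1 (by decide +kernel) B2_c0_t5 B2_c0_t6

theorem B2_c0_t3 : CovD 1 gB2 [(8246001664, 916455424), (3298534883328, 1099511627776), (17179869184, 17179869184)] :=
  covD_split 2 (by decide +kernel) B2_c0_t4 B2_c0_t7

theorem B2_c0_t2 : CovD 1 gB2 [(8246001664, 916455424), (3298534883328, 1099511627776), (34359738368, 34359738368)] :=
  covD_split 2 (by decide +kernel) B2_c0_t3 B2_c0_t8

theorem B2_c0_t1 : CovD 1 gB2 [(8246001664, 916455424), (3298534883328, 1099511627776), (68719476736, 68719476736)] :=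
  covD_split 2 (by decide +kernel) B2_c0_t2 B2_c0_t9

theorem B2_c0_t12 : CovD 1 gB2 [(10078912512, 916455424), (3298534883328, 1099511627776), (17179869184, 17179869184)] :=
  covD_split 2 (by decide +kernel) B2_c0_t13 B2_c0_t14

theorem B2_c0_t11 : CovD 1 gB2 [(10078912512, 916455424), (3298534883328, 1099511627776), (34359738368, 34359738368)] :=
  covD_split 2 (by decide +kernel) B2_c0_t12 B2_c0_t15

theorem B2_c0_t10 : CovD 1 gB2 [(10078912512, 916455424), (3298534883328, 1099511627776), (68719476736, 68719476736)] :=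
  covD_split 2 (by decide +kernel) B2_c0_t11 B2_c0_t16

theorem B2_c0 : CovD 1 gB2 [(9162457088, 1832910848), (3298534883328, 1099511627776), (68719476736, 68719476736)] :=
  covD_split 0 (by decide +kernel) B2_c0_t1 B2_c0_t10

theorem D2_c0_t1 : CovD 1 gD2 [(9162457088, 1832910848), (2748779069440, 549755813888), (863610339328, 863610339328)] :=
  covD_split 1 (by decide +kernel) D2_c0_t2 D2_c0_t3

theorem D2_c0_t6 : CovD 1 gD2 [(9162457088, 1832910848), (4123168604160, 274877906944), (863610339328, 863610339328)] :=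
  covD_split 0 (by decide +kernel) D2_c0_t7 D2_c0_t8

theorem D2_c0_t4 : CovD 1 gD2 [(9162457088, 1832910848), (3848290697216, 549755813888), (863610339328, 863610339328)] :=
  covD_split 1 (by decide +kernel) D2_c0_t5 D2_c0_t6

theorem D2_c0 : CovD 1 gD2 [(9162457088, 1832910848), (3298534883328, 1099511627776), (863610339328, 863610339328)] :=
  covD_split 1 (by decide +kernel) D2_c0_t1 D2_c0_t4

theorem E2_c0_t3 : CovD 1 gE2 [(9162457088, 1832910848), (3298534883328, 1099511627776), (107951292416, 107951292416)] :=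
  covD_split 2 (by decide +kernel) E2_c0_t4 E2_c0_t5

theorem E2_c0_t2 : CovD 1 gE2 [(9162457088, 1832910848), (3298534883328, 1099511627776), (215902584832, 215902584832)] :=
  covD_split 2 (by decide +kernel) E2_c0_t3 E2_c0_t6

theorem E2_c0_t7 : CovD 1 gE2 [(9162457088, 1832910848), (3298534883328, 1099511627776), (647707754496, 215902584832)] :=
  covD_split 2 (by decide +kernel) E2_c0_t8 E2_c0_t9

theorem E2_c0_t1 : CovD 1 gE2 [(9162457088, 1832910848), (3298534883328, 1099511627776), (431805169664, 431805169664)] :=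
  covD_split 2 (by decide +kernel) E2_c0_t2 E2_c0_t7

theorem E2_c0_t11 : CovD 1 gE2 [(9162457088, 1832910848), (3298534883328, 1099511627776), (1079512924160, 215902584832)] :=
  covD_split 2 (by decide +kernel) E2_c0_t12 E2_c0_t13

theorem E2_c0_t14 : CovD 1 gE2 [(9162457088, 1832910848), (3298534883328, 1099511627776), (1511318093824, 215902584832)] :=
  covD_split 2 (by decide +kernel) E2_c0_t15 E2_c0_t16

theorem E2_c0_t10 : CovD 1 gE2 [(9162457088, 1832910848), (3298534883328, 1099511627776), (1295415508992, 431805169664)] :=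
  covD_split 2 (by decide +kernel) E2_c0_t11 E2_c0_t14

theorem E2_c0 : CovD 1 gE2 [(9162457088, 1832910848), (3298534883328, 1099511627776), (863610339328, 863610339328)] :=
  covD_split 2 (by decide +kernel) E2_c0_t1 E2_c0_t10

end Pool.Agent.helper14.NS.Q100e
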