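import Pool.Agent.helper14.NS.Cert

/-!
Generated: table Q100e.
-/

namespace Pool.Agent.helper14.NS.Q100e

open Pool.Agent.helper63.NF Pool.Agent.helper4.NS

def tab : TD where
  strip := false
  bm := none
  ec := 9160359936
  bc := 3298534883328
  H := [[[262684928, 13578771392, -369809152, -444433024], [-1156272927168, -371039291136], [28386192131072]], [[40344320, -1622679808, 209242624], [303720736128, 78186074496]], [[35013824, 121010176, -22562240], [-29817139648]], [[-3133888, -5258176], [843908160]], [[59328, 120128]], [[3584]], [[-128]]]
  pol := some ⟨-1922534735872, -115380001439744, 5872294035456, 31362867265536, [[-60330259840, -44597978496], [-7302076740864, 0]], [[504907891392, -223319644096], [88208731964928, 0]]⟩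
  a := [[[457552887808, -43564859392, -55664902144, 65396146176], [-12947892273152, -525688307712]], [[46642429952, -4234018816, 2228420608, 4260036608], [393418571776, 1846954098688]], [[39033831424, 745537536, 845479936, -826343424], [37200134144, 630533521408]], [[38482935808, 0, 0, 0], [0, 0]], [[38482935808, 0, 0, 0], [0, 0]]]
  j := [2748779069440, 4810363371520, 2748779069440, 3298534883328, 4398046511104]
  c := [879662989312, 549755813888, 439697276928, 329907175424, 219848638464]
  M := [[[[1103497854976, -617676800, -1412825088], [788042088448, 714056400896], [134687034572800]], [[24162402304, 8210743296], [5150624710656]], [[24012324864, -24276631552], [914046582784]], [[22300131328]], [[-50672697344]], [[46001029120]]], [[[1104741138432, 2181103616, 333840384], [777136701440]], [[4680056832, 168296448], [572589867008]], [[-48365568]], [[1900544]]], [[[1104448389120, 1834090496, 166526976], [661903048704]], [[4523163648, 160694272], [568843960320]], [[-13238272]], [[589824]]], [[[1104304668672, 1891565568, 208011264], [568476762112]], [[4475715584, 148766720], [563109101568]], [[2359296]], [[-131072]]], [[[1104355131392, 2279342080, 136511488], [524972654592]], [[4437245952, 103677952], [575957958656]], [[12648448]],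 [[-458752]]]]
  l0 := [[[3677792682944, 147085167168], [24064667753664]], [[1519231981056, -181818529088], [-76239912063872]], [[471887244800, -165726538688], [98000059375808]], [[592055721408, 483515451264], [-198955603639040]], [[739749453440, -595125729408], [261969114006912]], [[-654775924096, 46368848960], [-262071807427008]], [[4016491453632]], [[-5559291343936]], [[11094953647040]], [[-6834067851904]], [[6179120558656]], [[598613012736]]]
  q0 := [[114183305664, 44074510656, 3727733312], [14858816135680, 6391828677888], [128228820842112]]
  t := [[[1018295943168, -260915265536, 8221753344, 40028340224], [-23440810180608, 24317939351552]], [[368799907840, 31165972480, -14369095680, 13717733376], [20992889126912, 10638944501760]], [[353450000384, 43515969536, -16069427200, 1451032576], [19808142622720, 8079317794816]], [[355179429888, 45152796672, -18087739392, 394526720], [18601808101376, 6136505827328]], [[382495358976, 43568660480, -19814875136, 3384410112], [17809233084416, 7117566050304]]]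
  y := [9968619094016, 12772158996480, 15206331711488, 17202417762304, 18776523276288]
  sc := [0, 0, 0, 0, 0]
  L := [(0, 2), (0, 3), (1, 1), (2, 0)]
  Lt := [(0, 2), (0, 3), (1, 1)]
  far := 4
  x2 := 10775214161920
  B1 := 1979120091136
  C2 := 1716310500352
  f1 := 0
  f2 := 0
  f3 := 0
  is1 := 8796093022208
  s1 := 137438953472

end Pool.Agent.helper14.NS.Q100e
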